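import Pool.Agent.Helper15.LR.LRSize

/-!
MP_6358c9_nt, module LR-COVER: every subvariety of a hypersurface section lies in a component.
-/

open MvPolynomial Filter Topology

namespace Pool.Agent.Helper15.LR

open Pool.Agent.Helper21.LR

@[simp] lemma thr_zero {m r : ℕ} (ξ : Fin m → ℂ) (u : Fin r × Fin m → ℂ) (i : Fin r) :
    thr ξ u (i, 0) = -∑ j, u (i, j) * ξ j := rfl

@[simp] lemma thr_succ {m r : ℕ} (ξ : Fin m → ℂ) (u : Fin r × Fin m → ℂ) (i : Fin r) (j : Fin m) :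
    thr ξ u (i, j.succ) = u (i, j) := rfl

lemma eval_genSub {m : ℕ} (r : ℕ) (ξ : Fin m → ℂ) (G : MvPolynomial (Fin r × Fin (m+1)) ℤ)
    (u : Fin r × Fin m → ℂ) : eval u (genSub r ξ G) = aeval (thr ξ u) G := by
  have h1 := MvPolynomial.comp_aeval_apply
    (φ := (MvPolynomial.aeval u : MvPolynomial (Fin r × Fin m) ℂ →ₐ[ℂ] ℂ).restrictScalars ℤ)
    (f := (fun ij : Fin r × Fin (m+1) => Fin.cases (motive := fun _ => MvPolynomial (Fin r × Fin m) ℂ)
      (-∑ j, C (ξ j) * X (ij.1, j)) (fun j => X (ij.1, j)) ij.2)) G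
  have h2 : eval u (genSub r ξ G) =
    ((MvPolynomial.aeval u : MvPolynomial (Fin r × Fin m) ℂ →ₐ[ℂ] ℂ).restrictScalars ℤ)
      (genSub r ξ G) := by
    simp
  rw [h2, genSub, h1]
  congr 2
  funext ij
  rcases ij with ⟨i, j⟩
  refine Fin.cases ?_ (fun j => ?_) j
  · simp [mul_comm]
  · simp

/-- integer substitution in the linear forms -/
lemma exists_int_poly {m r : ℕ} (G : MvPolynomial (Fin r × Fin (m+1)) ℤ) (u : Fin r × Fin m → ℤ) :
    ∃ G' : MvPolynomial (Fin m) ℤ, ∀ x : Fin m → ℂ,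
      aeval x G' = aeval (thr x (fun ij => (u ij : ℂ))) G := by
  refine ⟨aeval (fun ij : Fin r × Fin (m+1) => Fin.cases (motive := fun _ => MvPolynomial (Fin m) ℤ)
    (-∑ j, C (u (ij.1, j)) * X j) (fun j => C (u (ij.1, j))) ij.2) G, fun x => ?_⟩
  rw [MvPolynomial.comp_aeval_apply]
  congr 2
  funext ij
  rcases ij with ⟨i, j⟩
  refine Fin.cases ?_ (fun j => ?_) j
  · simp
  · simp

lemma infinite_int : (Set.range (fun n : ℤ => (n : ℂ))).Infinite :=
  Set.infinite_range_of_injective Int.cast_injective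

/-- vanishing passes to subvarieties -/
lemma vanish_of_onV {m r : ℕ} {ξ η : Fin m → ℂ} (h : OnV ξ η)
    (G : MvPolynomial (Fin r × Fin (m+1)) ℤ)
    (hG : ∀ u : Fin r × Fin m → ℂ, aeval (thr ξ u) G = 0) :
    ∀ u : Fin r × Fin m → ℂ, aeval (thr η u) G = 0 := by
  have h0 : genSub r η G = 0 := by
    refine MvPolynomial.funext_set (fun _ => Set.range (fun n : ℤ => (n : ℂ)))
      (fun _ => infinite_int) ?_
    intro x hx
    choose y hy using fun ij => hx ij (Set.mem_univ ij)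
    have hxy : x = fun ij => (y ij : ℂ) := funext fun ij => (hy ij).symm
    rw [eval_genSub, map_zero, hxy]
    obtain ⟨G', hG'⟩ := exists_int_poly G y
    rw [← hG']
    apply h
    rw [hG']
    exact hG _
  intro u
  rw [← eval_genSub, h0, map_zero]

lemma consU_thr {m r : ℕ} (η : Fin m → ℂ) (w' : Fin m → ℂ) (u : Fin r × Fin m → ℂ) :
    consU (Fin.cons (-∑ j, w' j * η j) w') (thr η u) =
      thr η (fun ij : Fin (r+1) × Fin m =>
        Fin.cases (motive := fun _ => ℂ) (w' ij.2) (fun i => u (i, ij.2)) ij.1) := by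
  funext ij
  rcases ij with ⟨i, j⟩
  refine Fin.cases ?_ (fun i => ?_) i
  · refine Fin.cases ?_ (fun j => ?_) j
    · simp [consU]
    · simp [consU]
  · refine Fin.cases ?_ (fun j => ?_) j
    · simp [consU]
    · simp [consU]

/-- if a product of linear forms vanishes identically then one of them does -/
lemma exists_eq_of_prod {m δ : ℕ} (p : Fin δ → Fin m → ℂ) (η : Fin m → ℂ)
    (h : ∀ w : Fin m → ℂ, ∏ σ, (∑ j, w j * (p σ j - η j)) = 0) : ∃ σ, p σ = η := by
  have h1 : (∏ σ : Fin δ, (∑ j, C (p σ j - η j) * X j) : MvPolynomial (Fin m) ℂ) = 0 := by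
    refine MvPolynomial.funext (fun w => ?_)
    rw [map_zero, map_prod]
    rw [← h w]
    refine Finset.prod_congr rfl (fun σ _ => ?_)
    rw [map_sum]
    refine Finset.sum_congr rfl (fun j _ => ?_)
    simp [mul_comm]
  obtain ⟨σ, _, hσ⟩ := Finset.prod_eq_zero_iff.mp h1
  refine ⟨σ, funext fun j => ?_⟩
  have h2 := congrArg (eval (Pi.single j 1 : Fin m → ℂ)) hσ
  rw [map_sum, map_zero] at h2
  simp only [map_mul, eval_C, eval_X] at h2
  rw [Finset.sum_eq_single j] at h2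
  · simpa [sub_eq_zero] using h2
  · intro k _ hk
    simp [hk]
  · simp

lemma key {m r : ℕ} {ξ : Fin m → ℂ} {F : MvPolynomial (Fin (r+1) × Fin (m+1)) ℤ}
    (S : Split r ξ F) (η : Fin m → ℂ)
    (hF : ∀ u : Fin (r+1) × Fin m → ℂ, aeval (thr η u) F = 0) (u : Fin r × Fin m → ℂ)
    (ha : aeval u S.a ≠ 0) :
    OnV ξ η ∧ ∀ (Q : MvPolynomial (Fin m) ℤ) (d : ℕ), Q.totalDegree ≤ d → aeval η Q = 0 →
      aeval (thr η u) (S.g Q d) = 0 := by
  have hua : (fun ij : Fin r × Fin m => thr η u (ij.1, ij.2.succ)) = u := by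
    funext ij; simp
  obtain ⟨p, hp1, hp2, hp3, hp4⟩ := S.pts (thr η u) (by rw [hua]; exact ha)
  rw [hua] at hp3 hp4
  obtain ⟨σ, hσ⟩ : ∃ σ, p σ = η := by
    refine exists_eq_of_prod p η (fun w => ?_)
    have h1 := hp3 (Fin.cons (-∑ j, w j * η j) w)
    rw [consU_thr, hF] at h1
    have h2 := (mul_eq_zero.mp h1.symm).resolve_left ha
    rw [← h2]
    refine Finset.prod_congr rfl (fun σ _ => ?_)
    simp only [Fin.cons_zero, Fin.cons_succ, mul_sub, Finset.sum_sub_distrib]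
    ring
  refine ⟨hσ ▸ hp1 σ, fun Q d hQ hQ0 => ?_⟩
  rw [hp4 Q d hQ]
  rw [Finset.prod_eq_zero (Finset.mem_univ σ) (by rw [hσ]; exact hQ0), mul_zero]

lemma genSub_rename {m r : ℕ} (η : Fin m → ℂ) (P' : MvPolynomial (Fin r × Fin m) ℤ) :
    genSub r η (rename (fun ij : Fin r × Fin m => (ij.1, (ij.2.succ : Fin (m+1)))) P') =
      map (algebraMap ℤ ℂ) P' := by
  refine MvPolynomial.funext (fun u => ?_)
  rw [eval_genSub, aeval_rename, eval_map, aeval_def]
  rfl

theorem cover (hS : SSplit) (hF : SFactor) : SCover := by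
  intro m r ξ F hV S Q d hQd hQ η hη hQη
  have hF0 : ∀ u : Fin (r+1+1) × Fin m → ℂ, aeval (thr ξ u) F = 0 :=
    (hV.chow.2 F).mpr dvd_rfl
  have hFη := vanish_of_onV hη F hF0
  have hg0 : S.g Q d ≠ 0 := S.g_ne Q d hQd hQ
  -- `g` vanishes on `thr η u`
  have hgη : genSub (r+1) η (S.g Q d) = 0 := by
    have h1 : map (algebraMap ℤ ℂ) S.a * genSub (r+1) η (S.g Q d) = 0 := by
      refine MvPolynomial.funext (fun u => ?_)
      rw [map_mul, eval_genSub, eval_map, map_zero]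
      by_cases ha : aeval u S.a = 0
      · rw [← aeval_def, ha, zero_mul]
      · rw [(key S η hFη u ha).2 Q d hQd hQη, mul_zero]
    refine (mul_eq_zero.mp h1).resolve_left ?_
    intro h2
    apply S.a_ne
    apply MvPolynomial.map_injective _ (algebraMap ℤ ℂ).injective_int
    rw [h2, map_zero]
  obtain ⟨P, hPirr, hPdvd, hPη⟩ : ∃ P, Irreducible P ∧ P ∣ S.g Q d ∧ genSub (r+1) η P = 0 := by
    obtain ⟨f, hf1, hf2⟩ := UniqueFactorizationMonoid.exists_prime_factors (S.g Q d) hg0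
    have h1 : genSub (r+1) η f.prod = 0 := by
      obtain ⟨v, hv⟩ := hf2
      have h2 : genSub (r+1) η f.prod * genSub (r+1) η (v : MvPolynomial _ ℤ) = 0 := by
        rw [← map_mul, hv, hgη]
      refine (mul_eq_zero.mp h2).resolve_right ?_
      exact (v.isUnit.map (genSub (r+1) η)).ne_zero
    rw [map_multiset_prod, Multiset.prod_eq_zero_iff, Multiset.mem_map] at h1
    obtain ⟨P, hP1, hP2⟩ := h1
    exact ⟨P, (hf1 P hP1).irreducible, (Multiset.dvd_prod hP1).trans hf2.dvd, hP2⟩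
  rcases hF m r ξ F hV S Q d hQd hQ P hPirr hPdvd with ⟨P', hP'⟩ | ⟨η', hη1, hη2, hη3⟩
  · exfalso
    have h1 : map (algebraMap ℤ ℂ) P' = 0 := by rw [← genSub_rename η, ← hP', hPη]
    have h2 : P' = 0 := by
      apply MvPolynomial.map_injective _ (algebraMap ℤ ℂ).injective_int
      rw [h1, map_zero]
    apply hPirr.ne_zero
    rw [hP', h2, map_zero]
  · refine ⟨P, η', hPirr, hPdvd, hη1, hη2, hη3, ?_⟩
    obtain ⟨S'⟩ := hS m r η' P hη1
    obtain ⟨u, _, hu⟩ := exists_aeval_ne S'.a S'.a_ne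
    refine (key S' η ?_ u hu).1
    intro u
    rw [← eval_genSub, hPη, map_zero]

end Pool.Agent.Helper15.LR
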