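import Pool.Agent.Helper21.LR.Stmts

/-!
MP_6358c9_nt, module LR-SIZE: the size estimate.
-/

open MvPolynomial Filter Topology

namespace Pool.Agent.Helper15.LR

open Pool.Agent.Helper21.LR

lemma card_support_le {ι : Type*} [Fintype ι] {R : Type*} [CommSemiring R]
    (F : MvPolynomial ι R) :
    F.support.card ≤ (F.totalDegree + 1) ^ Fintype.card ι := by
  classical
  calc F.support.card
      ≤ (Fintype.piFinset (fun _ : ι => Finset.range (F.totalDegree + 1))).card := by
        refine Finset.card_le_card_of_injOn (fun α => (α : ι → ℕ)) ?_ ?_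
        · intro α hα
          have h1 : (α.sum fun _ e => e) ≤ F.totalDegree := le_totalDegree hα
          simp only [Finset.mem_coe, Fintype.mem_piFinset, Finset.mem_range]
          intro i
          have h2 : α i ≤ α.sum fun _ e => e := by
            rw [Finsupp.sum_fintype _ _ (fun _ => rfl)]
            exact Finset.single_le_sum (f := fun i => α i) (fun _ _ => Nat.zero_le _)
              (Finset.mem_univ i)
          omega
        · intro a _ b _ h
          exact DFunLike.coe_injective h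
    _ = _ := by simp [Fintype.card_piFinset]

lemma norm_monomial_le {ι : Type*} [Fintype ι] (α : ι →₀ ℕ) (U : ι → ℂ) (t : ℝ) (ht1 : 1 ≤ t)
    (hU : ∀ i, ‖U i‖ ≤ t) (D : ℕ) (hD : (α.sum fun _ e => e) ≤ D) :
    ‖∏ i, U i ^ α i‖ ≤ t ^ D := by
  rw [norm_prod]
  calc ∏ i, ‖U i ^ α i‖ ≤ ∏ i, t ^ α i := by
        refine Finset.prod_le_prod (fun _ _ => norm_nonneg _) (fun i _ => ?_)
        rw [norm_pow]
        exact pow_le_pow_left₀ (norm_nonneg _) (hU i) _
    _ = t ^ (∑ i, α i) := by rw [Finset.prod_pow_eq_pow_sum]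
    _ ≤ t ^ D := by
        refine pow_le_pow_right₀ ht1 ?_
        rwa [Finsupp.sum_fintype _ _ (fun _ => rfl)] at hD

lemma norm_aeval_le {ι : Type*} [Fintype ι] (F : MvPolynomial ι ℤ) (U : ι → ℂ) (t : ℝ)
    (ht1 : 1 ≤ t) (hU : ∀ i, ‖U i‖ ≤ t) :
    ‖aeval U F‖ ≤ F.support.card * ht F * t ^ F.totalDegree := by
  rw [aeval_def, eval₂_eq']
  calc ‖∑ d ∈ F.support, (algebraMap ℤ ℂ) (coeff d F) * ∏ i, U i ^ d i‖
      ≤ ∑ d ∈ F.support, ‖(algebraMap ℤ ℂ) (coeff d F) * ∏ i, U i ^ d i‖ := norm_sum_le _ _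
    _ ≤ ∑ d ∈ F.support, (ht F : ℝ) * t ^ F.totalDegree := by
        refine Finset.sum_le_sum (fun d hd => ?_)
        rw [norm_mul]
        refine mul_le_mul ?_ (norm_monomial_le d U t ht1 hU _ (le_totalDegree hd))
          (norm_nonneg _) (Nat.cast_nonneg _)
        have h1 : (coeff d F).natAbs ≤ ht F :=
          Finset.le_sup (f := fun α => (F.coeff α).natAbs) hd
        have h2 : ‖(algebraMap ℤ ℂ) (coeff d F)‖ = ((coeff d F).natAbs : ℝ) := by
          simp [Nat.cast_natAbs]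
        rw [h2]
        exact_mod_cast h1
    _ = _ := by
        rw [Finset.sum_const, nsmul_eq_mul]
        ring

lemma norm_eval_le {ι : Type*} [Fintype ι] (G : MvPolynomial ι ℂ) (U : ι → ℂ) (t : ℝ)
    (ht1 : 1 ≤ t) (hU : ∀ i, ‖U i‖ ≤ t) (N : ℕ) (hN : G.totalDegree ≤ N) :
    ‖eval U G‖ ≤ len G * t ^ N := by
  rw [eval_eq']
  calc ‖∑ d ∈ G.support, coeff d G * ∏ i, U i ^ d i‖
      ≤ ∑ d ∈ G.support, ‖coeff d G * ∏ i, U i ^ d i‖ := norm_sum_le _ _
    _ ≤ ∑ d ∈ G.support, ‖coeff d G‖ * t ^ N := by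
        refine Finset.sum_le_sum (fun d hd => ?_)
        rw [norm_mul]
        exact mul_le_mul_of_nonneg_left
          (norm_monomial_le d U t ht1 hU _ ((le_totalDegree hd).trans hN)) (norm_nonneg _)
    _ = _ := by rw [len, Finset.sum_mul]

lemma len_nonneg {ι : Type*} (G : MvPolynomial ι ℂ) : 0 ≤ len G :=
  Finset.sum_nonneg (fun _ _ => norm_nonneg _)

/-- bound at points where `a` does not vanish -/
lemma bound_of_ne (h : SProdLin) {m r : ℕ} {ξ : Fin m → ℂ}
    {F : MvPolynomial (Fin (r+1) × Fin (m+1)) ℤ} (S : Split r ξ F) (N : ℕ)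
    (Q : MvPolynomial (Fin m) ℤ) (G : MvPolynomial (Fin m) ℂ) (hR : Rep ξ N Q G)
    (t : ℝ) (ht1 : 1 ≤ t) (U : Fin r × Fin (m+1) → ℂ) (hU : ∀ ij, ‖U ij‖ ≤ t)
    (ha : aeval (fun ij : Fin r × Fin m => U (ij.1, ij.2.succ)) S.a ≠ 0) :
    ‖aeval U (S.g Q N)‖ ≤
      (len G) ^ S.δ * (2 ^ ((m+1) * S.δ) * (F.support.card * ht F * t ^ F.totalDegree)) ^ N := by
  obtain ⟨p, hp1, hp2, hp3, hp4⟩ := S.pts U ha
  set a : ℂ := aeval (fun ij : Fin r × Fin m => U (ij.1, ij.2.succ)) S.a with ha'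
  set q : Fin S.δ → Fin (m+1) → ℂ := fun σ => Fin.cons 1 (p σ) with hq
  have hq0 : ∀ σ, q σ 0 = 1 := fun σ => by simp [hq]
  have hqs : ∀ σ j, q σ (Fin.succ j) = p σ j := fun σ j => by simp [hq]
  have hq1 : ∀ σ, 1 ≤ ‖q σ‖ := fun σ => by
    have := norm_le_pi_norm (q σ) 0
    rw [hq0] at this
    simpa using this
  have hqp : ∀ σ j, ‖p σ j‖ ≤ ‖q σ‖ := fun σ j => by
    have := norm_le_pi_norm (q σ) (Fin.succ j)
    rwa [hqs] at this
  have hprod := h (m+1) S.δ q a (F.support.card * ht F * t ^ F.totalDegree) (by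
    intro u hu
    have h1 : a * ∏ σ, ∑ j, u j * q σ j = aeval (consU u U) F := by
      rw [hp3 u]
      congr 1
      refine Finset.prod_congr rfl (fun σ _ => ?_)
      rw [Fin.sum_univ_succ]
      simp only [hq0, hqs, mul_one]
    rw [h1]
    refine norm_aeval_le F _ t ht1 ?_
    rintro ⟨i, j⟩
    refine Fin.cases ?_ (fun i => ?_) i
    · simpa [consU] using (hu j).trans ht1
    · simpa [consU] using hU (i, j))
  rw [hp4 Q N hR.1, norm_mul, norm_pow, norm_prod]
  have hfac : ∀ σ, ‖aeval (p σ) Q‖ ≤ len G * ‖q σ‖ ^ N := fun σ => by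
    rw [hR.2.2 _ (hp1 σ)]
    exact norm_eval_le G (p σ) _ (hq1 σ) (hqp σ) N hR.2.1
  calc ‖a‖ ^ N * ∏ σ, ‖aeval (p σ) Q‖ ≤ ‖a‖ ^ N * ∏ σ, (len G * ‖q σ‖ ^ N) := by
        refine mul_le_mul_of_nonneg_left ?_ (by positivity)
        exact Finset.prod_le_prod (fun _ _ => norm_nonneg _) (fun σ _ => hfac σ)
    _ = (len G) ^ S.δ * (‖a‖ * ∏ σ, ‖q σ‖) ^ N := by
        rw [Finset.prod_mul_distrib, Finset.prod_const, Finset.card_univ, Fintype.card_fin,
          Finset.prod_pow, mul_pow]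
        ring
    _ ≤ _ := by
        refine mul_le_mul_of_nonneg_left ?_ (pow_nonneg (len_nonneg G) _)
        refine pow_le_pow_left₀ ?_ hprod N
        exact mul_nonneg (norm_nonneg _) (Finset.prod_nonneg fun _ _ => norm_nonneg _)

lemma infinite_closedBall : (Metric.closedBall (0:ℂ) 1).Infinite := by
  refine infinite_of_mem_nhds (0:ℂ) ?_
  exact Metric.closedBall_mem_nhds 0 one_pos

lemma exists_aeval_ne {ι : Type*} [Fintype ι] (a : MvPolynomial ι ℤ) (ha : a ≠ 0) :
    ∃ V : ι → ℂ, (∀ i, ‖V i‖ ≤ 1) ∧ aeval V a ≠ 0 := by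
  by_contra hcon
  push Not at hcon
  apply ha
  have hinj : Function.Injective (algebraMap ℤ ℂ) := (algebraMap ℤ ℂ).injective_int
  apply MvPolynomial.map_injective _ hinj
  rw [map_zero]
  refine MvPolynomial.funext_set (fun _ => Metric.closedBall (0:ℂ) 1)
    (fun _ => infinite_closedBall) ?_
  intro x hx
  rw [eval_map, map_zero]
  exact hcon x (fun i => by simpa using hx i (Set.mem_univ i))

lemma continuous_aeval {ι : Type*} (g : MvPolynomial ι ℤ) :
    Continuous (fun U : ι → ℂ => aeval U g) := by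
  have h : (fun U : ι → ℂ => aeval U g) = fun U => eval U (map (algebraMap ℤ ℂ) g) := by
    funext U
    rw [eval_map, aeval_def]
  rw [h]
  exact MvPolynomial.continuous_eval _

/-- extension of an inequality across the zero set of a nonzero polynomial -/
lemma extend_bound {ι : Type*} [Fintype ι] (a : MvPolynomial ι ℤ) (ha : a ≠ 0)
    (f : (ι → ℂ) → ℝ) (hf : Continuous f) (K t : ℝ) (ht1 : 1 ≤ t)
    (h : ∀ U : ι → ℂ, (∀ i, ‖U i‖ ≤ t) → aeval U a ≠ 0 → f U ≤ K) :
    ∀ U : ι → ℂ, (∀ i, ‖U i‖ ≤ t) → f U ≤ K := by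
  intro U hU
  obtain ⟨V, hV1, hV2⟩ := exists_aeval_ne a ha
  set P : Polynomial ℂ := aeval (fun i => Polynomial.C (U i) + Polynomial.X *
    Polynomial.C (V i - U i)) a with hP
  have hPe : ∀ s : ℂ, P.eval s = aeval (fun i => U i + s * (V i - U i)) a := by
    intro s
    have h1 := MvPolynomial.comp_aeval_apply (φ := (Polynomial.aeval s : Polynomial ℂ →ₐ[ℂ] ℂ).restrictScalars ℤ)
      (f := fun i => Polynomial.C (U i) + Polynomial.X * Polynomial.C (V i - U i)) a
    simpa [hP, Polynomial.coe_aeval_eq_eval] using h1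
  have hP0 : P ≠ 0 := by
    intro h0
    have h1 := hPe 1
    rw [h0] at h1
    apply hV2
    simpa using h1.symm
  have hev : ∀ᶠ s : ℝ in 𝓝[>] 0, P.eval (s:ℂ) ≠ 0 := by
    have hfin : (((P.roots.toFinset : Set ℂ)) \ {0}).Finite :=
      (P.roots.toFinset.finite_toSet).subset Set.sdiff_subset
    have hopen : IsOpen ((((P.roots.toFinset : Set ℂ)) \ {0})ᶜ) := hfin.isClosed.isOpen_compl
    have h0 : ((((P.roots.toFinset : Set ℂ)) \ {0})ᶜ) ∈ 𝓝 ((0:ℝ):ℂ) :=
      hopen.mem_nhds (by simp)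
    have h1 := Complex.continuous_ofReal.continuousAt (x := (0:ℝ)) h0
    have h2 : ∀ᶠ s : ℝ in 𝓝[>] 0, (s:ℂ) ∈ ((((P.roots.toFinset : Set ℂ)) \ {0})ᶜ) :=
      nhdsWithin_le_nhds h1
    filter_upwards [h2, self_mem_nhdsWithin] with s hs hs0 hroot
    apply hs
    refine ⟨?_, ?_⟩
    · simpa [hP0] using hroot
    · have : s ≠ 0 := ne_of_gt hs0
      simpa using this
  have hle : ∀ᶠ s : ℝ in 𝓝[>] 0, s ≤ 1 := by
    have : Set.Iio (1:ℝ) ∈ 𝓝 (0:ℝ) := Iio_mem_nhds one_pos
    filter_upwards [nhdsWithin_le_nhds this] with s hs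
    exact le_of_lt hs
  have htend : Tendsto (fun s : ℝ => f (fun i => U i + (s:ℂ) * (V i - U i))) (𝓝[>] 0) (𝓝 (f U)) := by
    have hc : Continuous (fun s : ℝ => f (fun i => U i + (s:ℂ) * (V i - U i))) := by
      refine hf.comp (continuous_pi fun i => ?_)
      fun_prop
    have h1 := (hc.tendsto 0).mono_left (nhdsWithin_le_nhds (s := Set.Ioi 0))
    simpa using h1
  refine le_of_tendsto htend ?_
  filter_upwards [hev, hle, self_mem_nhdsWithin] with s hs1 hs2 hs3
  have hs3 : 0 < s := hs3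
  refine h _ (fun i => ?_) ?_
  · have h1 : U i + (s:ℂ) * (V i - U i) = ((1 - s : ℝ) : ℂ) * U i + (s:ℂ) * V i := by
      push_cast; ring
    rw [h1]
    calc ‖((1 - s : ℝ) : ℂ) * U i + (s:ℂ) * V i‖ ≤ ‖((1 - s : ℝ) : ℂ) * U i‖ + ‖(s:ℂ) * V i‖ :=
          norm_add_le _ _
      _ = (1 - s) * ‖U i‖ + s * ‖V i‖ := by
          rw [norm_mul, norm_mul, Complex.norm_real, Complex.norm_real, Real.norm_of_nonneg
            (by linarith), Real.norm_of_nonneg hs3.le]
      _ ≤ (1 - s) * t + s * t := by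
          refine add_le_add (mul_le_mul_of_nonneg_left (hU i) (by linarith))
            (mul_le_mul_of_nonneg_left ((hV1 i).trans ht1) hs3.le)
      _ = t := by ring
  · rw [← hPe]
    exact hs1

lemma natDegree_le_of_growth (P : Polynomial ℂ) (K : ℝ) (M : ℕ)
    (h : ∀ s : ℝ, 1 ≤ s → ‖P.eval (s:ℂ)‖ ≤ K * s ^ M) : P.natDegree ≤ M := by
  by_contra hcon
  push Not at hcon
  have hmon : (Polynomial.X ^ M : Polynomial ℂ).Monic := Polynomial.monic_X_pow M
  set Q := P /ₘ (Polynomial.X ^ M) with hQ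
  set R := P %ₘ (Polynomial.X ^ M) with hR
  have hsum : R + Polynomial.X ^ M * Q = P := Polynomial.modByMonic_add_div P _
  have hQd : Q.natDegree = P.natDegree - M := by
    rw [hQ, Polynomial.natDegree_divByMonic P hmon, Polynomial.natDegree_X_pow]
  have hRd : R.natDegree ≤ M := by
    have h1 : R.degree < (Polynomial.X ^ M : Polynomial ℂ).degree := Polynomial.degree_modByMonic_lt P hmon
    rw [Polynomial.degree_X_pow] at h1
    exact Polynomial.natDegree_le_of_degree_le h1.le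
  have hRb : ∀ s : ℝ, 1 ≤ s → ‖R.eval (s:ℂ)‖ ≤ (∑ i ∈ Finset.range (R.natDegree+1), ‖R.coeff i‖) * s ^ M := by
    intro s hs
    rw [Polynomial.eval_eq_sum_range, Finset.sum_mul]
    refine (norm_sum_le _ _).trans (Finset.sum_le_sum fun i hi => ?_)
    rw [norm_mul, norm_pow, Complex.norm_real, Real.norm_of_nonneg (by linarith)]
    refine mul_le_mul_of_nonneg_left (pow_le_pow_right₀ hs ?_) (norm_nonneg _)
    have := Finset.mem_range.mp hi
    omega
  set C0 := (∑ i ∈ Finset.range (R.natDegree+1), ‖R.coeff i‖) with hC0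
  have hQb : ∀ s : ℝ, 1 ≤ s → ‖Q.eval (s:ℂ)‖ ≤ K + C0 := by
    intro s hs
    have hs0 : 0 < s := by linarith
    have h1 : (s:ℂ) ^ M * Q.eval (s:ℂ) = P.eval (s:ℂ) - R.eval (s:ℂ) := by
      rw [← hsum]; simp
    have h2 : s ^ M * ‖Q.eval (s:ℂ)‖ ≤ s ^ M * (K + C0) := by
      calc s ^ M * ‖Q.eval (s:ℂ)‖ = ‖(s:ℂ) ^ M * Q.eval (s:ℂ)‖ := by
            rw [norm_mul, norm_pow, Complex.norm_real, Real.norm_of_nonneg hs0.le]
        _ = ‖P.eval (s:ℂ) - R.eval (s:ℂ)‖ := by rw [h1]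
        _ ≤ ‖P.eval (s:ℂ)‖ + ‖R.eval (s:ℂ)‖ := norm_sub_le _ _
        _ ≤ K * s ^ M + C0 * s ^ M := add_le_add (h s hs) (hRb s hs)
        _ = s ^ M * (K + C0) := by ring
    exact le_of_mul_le_mul_left h2 (pow_pos hs0 M)
  have hdeg : 0 < Q.degree := by
    rw [← Polynomial.natDegree_pos_iff_degree_pos]
    omega
  have htend : Tendsto (fun n : ℕ => ‖Q.eval (((n:ℝ)):ℂ)‖) atTop atTop := by
    refine Polynomial.tendsto_norm_atTop Q hdeg ?_
    simpa using tendsto_natCast_atTop_atTop (R := ℝ)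
  obtain ⟨n, hn1, hn2⟩ := ((htend.eventually (eventually_gt_atTop (K + C0))).and
    (eventually_ge_atTop 1)).exists
  have := hQb (n:ℝ) (by exact_mod_cast hn2)
  linarith

lemma totalDegree_le_of_growth {ι : Type*} [Fintype ι] (g : MvPolynomial ι ℤ) (K : ℝ) (M : ℕ)
    (h : ∀ t : ℝ, 1 ≤ t → ∀ U : ι → ℂ, (∀ i, ‖U i‖ ≤ t) → ‖aeval U g‖ ≤ K * t ^ M) :
    g.totalDegree ≤ M := by
  by_contra hcon
  push Not at hcon
  set g' : MvPolynomial ι ℂ := map (algebraMap ℤ ℂ) g with hg'
  have hinj : Function.Injective (algebraMap ℤ ℂ) := (algebraMap ℤ ℂ).injective_int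
  have hge : ∀ U, eval U g' = aeval U g := fun U => by rw [hg', eval_map, aeval_def]
  obtain ⟨α, hα, hαM⟩ : ∃ α ∈ g.support, M < α.sum fun _ e => e := by
    rw [totalDegree, Finset.lt_sup_iff] at hcon
    exact hcon
  have hαdeg : (α.sum fun _ e => e) = α.degree := rfl
  set d := α.degree with hd
  have hsup : g'.support = g.support := MvPolynomial.support_map_of_injective g hinj
  have hα' : α ∈ g'.support := by rw [hsup]; exact hα
  have hdtd : d ≤ g'.totalDegree := by
    rw [← hαdeg]; exact le_totalDegree hα'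
  have hh : homogeneousComponent d g' ≠ 0 := by
    intro h0
    have h1 := coeff_homogeneousComponent d g' α
    rw [h0, coeff_zero, if_pos rfl] at h1
    exact (mem_support_iff.mp hα') h1.symm
  obtain ⟨U, hU⟩ : ∃ U, eval U (homogeneousComponent d g') ≠ 0 := by
    by_contra hc
    push Not at hc
    exact hh (MvPolynomial.funext (fun U => by rw [hc U, map_zero]))
  set P : Polynomial ℂ := ∑ k ∈ Finset.range (g'.totalDegree + 1),
    Polynomial.C (eval U (homogeneousComponent k g')) * Polynomial.X ^ k with hP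
  have hPe : ∀ s : ℂ, P.eval s = eval (fun i => s * U i) g' := by
    intro s
    conv_rhs => rw [← sum_homogeneousComponent g']
    rw [hP, Polynomial.eval_finsetSum, map_sum]
    refine Finset.sum_congr rfl (fun k _ => ?_)
    rw [Polynomial.eval_mul, Polynomial.eval_C, Polynomial.eval_pow, Polynomial.eval_X]
    have h1 := (homogeneousComponent_isHomogeneous k g')
    have h2 : eval (fun i => s * U i) (homogeneousComponent k g') =
        s ^ k * eval U (homogeneousComponent k g') := by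
      rw [eval_eq', eval_eq', Finset.mul_sum]
      refine Finset.sum_congr rfl (fun β hβ => ?_)
      have h3 : β.degree = k := by
        have := h1 (mem_support_iff.mp hβ)
        rwa [Finsupp.degree_eq_weight_one] 
      have h4 : ∏ i, (s * U i) ^ β i = s ^ k * ∏ i, U i ^ β i := by
        simp_rw [mul_pow]
        rw [Finset.prod_mul_distrib, Finset.prod_pow_eq_pow_sum, ← h3,
          Finsupp.degree_eq_sum]
      rw [h4]; ring
    rw [h2]; ring
  have hPc : P.coeff d = eval U (homogeneousComponent d g') := by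
    rw [hP, Polynomial.finsetSum_coeff]
    simp only [Polynomial.coeff_C_mul, Polynomial.coeff_X_pow, mul_ite, mul_one, mul_zero]
    rw [Finset.sum_ite_eq (Finset.range (g'.totalDegree + 1)) d, if_pos]
    exact Finset.mem_range.mpr (by omega)
  have hPd : d ≤ P.natDegree := Polynomial.le_natDegree_of_ne_zero (by rw [hPc]; exact hU)
  set R : ℝ := max 1 ‖U‖ with hR
  have hR1 : 1 ≤ R := le_max_left _ _
  have hgrow := natDegree_le_of_growth P (K * R ^ M) M (by
    intro s hs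
    rw [hPe, hge]
    have h1 := h (s * R) (by nlinarith) (fun i => (s:ℂ) * U i) (fun i => by
      rw [norm_mul, Complex.norm_real, Real.norm_of_nonneg (by linarith)]
      exact mul_le_mul_of_nonneg_left ((norm_le_pi_norm U i).trans (le_max_right _ _))
        (by linarith))
    rw [mul_pow] at h1
    calc _ ≤ _ := h1
      _ = _ := by ring)
  omega

lemma bound_all (h : SProdLin) {m r : ℕ} {ξ : Fin m → ℂ}
    {F : MvPolynomial (Fin (r+1) × Fin (m+1)) ℤ} (S : Split r ξ F) (N : ℕ)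
    (Q : MvPolynomial (Fin m) ℤ) (G : MvPolynomial (Fin m) ℂ) (hR : Rep ξ N Q G)
    (t : ℝ) (ht1 : 1 ≤ t) (U : Fin r × Fin (m+1) → ℂ) (hU : ∀ ij, ‖U ij‖ ≤ t) :
    ‖aeval U (S.g Q N)‖ ≤
      (len G) ^ S.δ * (2 ^ ((m+1) * S.δ) * (F.support.card * ht F * t ^ F.totalDegree)) ^ N := by
  have hinj : Function.Injective (fun ij : Fin r × Fin m => (ij.1, (ij.2.succ : Fin (m+1)))) := by
    rintro ⟨a, b⟩ ⟨c, d⟩ h
    simp only [Prod.mk.injEq, Fin.succ_inj] at h
    exact Prod.ext h.1 h.2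
  refine extend_bound (rename (fun ij : Fin r × Fin m => (ij.1, (ij.2.succ : Fin (m+1)))) S.a)
    ?_ (fun U => ‖aeval U (S.g Q N)‖) (continuous_aeval _).norm _ t ht1 ?_ U hU
  · intro h0
    exact S.a_ne (rename_injective _ hinj (by rw [h0, map_zero]))
  · intro U hU ha
    refine bound_of_ne h S N Q G hR t ht1 U hU ?_
    rw [aeval_rename] at ha
    exact ha

theorem size (h : SProdLin) : SSize := by
  intro m
  refine ⟨((m:ℝ)+1) + ((m:ℝ)+1)^2, by nlinarith [Nat.cast_nonneg (α := ℝ) m], ?_⟩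
  intro r ξ F hF S N Q G hN hR
  have hm0 : (0:ℝ) ≤ m := Nat.cast_nonneg m
  set D := F.totalDegree with hD
  have hδD : S.δ ≤ D := by
    rw [S.δ_eq]; exact degreeOf_le_totalDegree F (0,0)
  have hδ1 : 1 ≤ S.δ := S.δ_pos
  have hD1 : 1 ≤ D := hδ1.trans hδD
  have hF0 : F ≠ 0 := hF.chow.1
  have hht : 1 ≤ ht F := by
    obtain ⟨α, hα⟩ := MvPolynomial.support_nonempty.mpr hF0
    have h1 : (coeff α F).natAbs ≤ ht F :=
      Finset.le_sup (f := fun α => (F.coeff α).natAbs) hα
    have h2 : coeff α F ≠ 0 := mem_support_iff.mp hα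
    have h3 : 1 ≤ (coeff α F).natAbs := Int.natAbs_pos.mpr h2
    omega
  have hlog : 0 ≤ Real.log (ht F) := Real.log_natCast_nonneg _
  have hsz : sz F = D + Real.log (ht F) := rfl
  have hszD : (D:ℝ) ≤ sz F := by rw [hsz]; linarith
  have hsz1 : (1:ℝ) ≤ sz F := by
    have : (1:ℝ) ≤ D := by exact_mod_cast hD1
    linarith
  have hrm : r ≤ m := by
    have h1 : trd ξ = r := hF.dim
    have h2 : trd ξ ≤ m := by
      unfold trd rk
      refine (Matroid.eRk_le_encard _ _).trans ?_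
      rw [← Set.image_univ]
      refine (Set.encard_image_le _ _).trans ?_
      simp [Set.encard_univ]
    rw [h1] at h2
    exact_mod_cast h2
  have hcard : (F.support.card : ℝ) ≤ Real.exp (((m:ℝ)+1)^2 * D) := by
    have h1 : (F.support.card : ℝ) ≤ ((D:ℝ)+1) ^ ((r+1)*(m+1)) := by
      have := card_support_le F
      rw [Fintype.card_prod, Fintype.card_fin, Fintype.card_fin] at this
      exact_mod_cast this
    have h2 : ((D:ℝ)+1) ≤ Real.exp D := Real.add_one_le_exp _
    calc (F.support.card : ℝ) ≤ ((D:ℝ)+1) ^ ((r+1)*(m+1)) := h1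
      _ ≤ (Real.exp D) ^ ((r+1)*(m+1)) := pow_le_pow_left₀ (by positivity) h2 _
      _ ≤ (Real.exp D) ^ ((m+1)^2) := by
          refine pow_le_pow_right₀ (Real.one_le_exp (by positivity)) ?_
          nlinarith
      _ = Real.exp (((m:ℝ)+1)^2 * D) := by
          rw [← Real.exp_nat_mul]
          push_cast
          ring_nf
  have hB : (F.support.card : ℝ) * ht F ≤ Real.exp (((m:ℝ)+1)^2 * sz F) := by
    have h1 : ((ht F : ℕ):ℝ) = Real.exp (Real.log (ht F)) := by
      rw [Real.exp_log]; exact_mod_cast hht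
    calc (F.support.card : ℝ) * ht F ≤ Real.exp (((m:ℝ)+1)^2 * D) * Real.exp (Real.log (ht F)) := by
          rw [← h1]
          exact mul_le_mul_of_nonneg_right hcard (Nat.cast_nonneg _)
      _ = Real.exp (((m:ℝ)+1)^2 * D + Real.log (ht F)) := by rw [Real.exp_add]
      _ ≤ Real.exp (((m:ℝ)+1)^2 * sz F) := by
          refine Real.exp_le_exp.mpr ?_
          rw [hsz]
          have h5 : (1:ℝ) ≤ ((m:ℝ)+1)^2 := by nlinarith
          have h6 : 1 * Real.log (ht F) ≤ ((m:ℝ)+1)^2 * Real.log (ht F) :=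
            mul_le_mul_of_nonneg_right h5 hlog
          linarith
  have h2pow : (2:ℝ) ^ ((m+1) * S.δ) ≤ Real.exp (((m:ℝ)+1) * sz F) := by
    have h1 : (2:ℝ) ≤ Real.exp 1 := by
      have := Real.add_one_le_exp (1:ℝ)
      linarith
    calc (2:ℝ) ^ ((m+1) * S.δ) ≤ (Real.exp 1) ^ ((m+1) * S.δ) :=
          pow_le_pow_left₀ (by norm_num) h1 _
      _ = Real.exp (((m:ℝ)+1) * S.δ) := by
          rw [← Real.exp_nat_mul]
          push_cast
          ring_nf
      _ ≤ Real.exp (((m:ℝ)+1) * sz F) := by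
          refine Real.exp_le_exp.mpr ?_
          have : (S.δ:ℝ) ≤ D := by exact_mod_cast hδD
          nlinarith
  have hkey : (2 ^ ((m+1) * S.δ) * ((F.support.card : ℝ) * ht F)) ^ N ≤
      Real.exp ((((m:ℝ)+1) + ((m:ℝ)+1)^2) * N * sz F) := by
    calc (2 ^ ((m+1) * S.δ) * ((F.support.card : ℝ) * ht F)) ^ N
        ≤ (Real.exp (((m:ℝ)+1) * sz F) * Real.exp (((m:ℝ)+1)^2 * sz F)) ^ N := by
          refine pow_le_pow_left₀ (by positivity) ?_ N
          exact mul_le_mul h2pow hB (by positivity) (Real.exp_nonneg _)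
      _ = _ := by
          rw [← Real.exp_add, ← Real.exp_nat_mul]
          ring_nf
  refine ⟨?_, ?_⟩
  · have hdeg : (S.g Q N).totalDegree ≤ D * N := by
      refine totalDegree_le_of_growth (S.g Q N)
        ((len G) ^ S.δ * (2 ^ ((m+1) * S.δ) * ((F.support.card : ℝ) * ht F)) ^ N) (D * N) ?_
      intro t ht1 U hU
      refine (bound_all h S N Q G hR t ht1 U hU).trans (le_of_eq ?_)
      rw [pow_mul]
      ring
    have hdeg' : ((S.g Q N).totalDegree : ℝ) ≤ D * N := by exact_mod_cast hdeg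
    refine hdeg'.trans ?_
    have hN0 : (0:ℝ) ≤ N := Nat.cast_nonneg N
    calc (D:ℝ) * N ≤ sz F * N := mul_le_mul_of_nonneg_right hszD hN0
      _ = 1 * (N * sz F) := by ring
      _ ≤ (((m:ℝ)+1) + ((m:ℝ)+1)^2) * (N * sz F) := by
          refine mul_le_mul_of_nonneg_right (by nlinarith) (by positivity)
      _ = _ := by ring
  · intro U hU
    refine (bound_all h S N Q G hR 1 le_rfl U hU).trans ?_
    refine mul_le_mul_of_nonneg_left ?_ (pow_nonneg (len_nonneg G) _)
    rw [one_pow, mul_one]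
    exact hkey

end Pool.Agent.Helper15.LR
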