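import Pool.Agent.Helper15.LR.LRCover

/-!
MP_6358c9_nt, module LR-S5: assembly of `Split`.
-/

open MvPolynomial

namespace Pool.Agent.Helper15.LR

open Pool.Agent.Helper21.LR

/-- coefficient ring: integer polynomials in the last `r` linear forms -/
abbrev RR (r m : ℕ) : Type := MvPolynomial (Fin r × Fin (m+1)) ℤ

/-- evaluation at complex linear forms -/
noncomputable def psi {r m : ℕ} (U : Fin r × Fin (m+1) → ℂ) : RR r m →+* ℂ :=
  (aeval U : RR r m →ₐ[ℤ] ℂ).toRingHom

lemma psi_apply {r m : ℕ} (U : Fin r × Fin (m+1) → ℂ) (G : RR r m) : psi U G = aeval U G := rfl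

/-- view `F` as a polynomial in the first linear form -/
noncomputable def toR {r m : ℕ} (F : MvPolynomial (Fin (r+1) × Fin (m+1)) ℤ) :
    MvPolynomial (Fin (m+1)) (RR r m) :=
  aeval (fun ij : Fin (r+1) × Fin (m+1) =>
    Fin.cases (motive := fun _ => MvPolynomial (Fin (m+1)) (RR r m)) (X ij.2)
      (fun i => C (X (i, ij.2))) ij.1) F

lemma eval₂_toR {r m : ℕ} (F : MvPolynomial (Fin (r+1) × Fin (m+1)) ℤ)
    (V : Fin r × Fin (m+1) → ℂ) (w : Fin (m+1) → ℂ) :
    eval₂ (psi V) w (toR F) = aeval (consU w V) F := by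
  have h1 : ((eval₂Hom (psi V) w).comp (aeval (fun ij : Fin (r+1) × Fin (m+1) =>
      Fin.cases (motive := fun _ => MvPolynomial (Fin (m+1)) (RR r m)) (X ij.2)
      (fun i => C (X (i, ij.2))) ij.1) :
        MvPolynomial (Fin (r+1) × Fin (m+1)) ℤ →ₐ[ℤ] MvPolynomial (Fin (m+1)) (RR r m)).toRingHom) =
      (aeval (consU w V) : MvPolynomial (Fin (r+1) × Fin (m+1)) ℤ →ₐ[ℤ] ℂ).toRingHom := by
    refine MvPolynomial.ringHom_ext (fun n => ?_) (fun ij => ?_)
    · simp
    · rcases ij with ⟨i, j⟩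
      refine Fin.cases ?_ (fun i => ?_) i
      · simp [consU]
      · simp [consU, psi_apply]
  exact congrArg (fun f => f F) h1

lemma consU_surj {r m : ℕ} (z : Fin (r+1) × Fin (m+1) → ℂ) :
    consU (fun j => z (0, j)) (fun ij : Fin r × Fin (m+1) => z (ij.1.succ, ij.2)) = z := by
  funext ij
  rcases ij with ⟨i, j⟩
  refine Fin.cases ?_ (fun i => ?_) i
  · simp [consU]
  · simp [consU]

lemma eq_zero_of_aeval {ι : Type*} (L : MvPolynomial ι ℤ) (h : ∀ z : ι → ℂ, aeval z L = 0) :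
    L = 0 := by
  apply MvPolynomial.map_injective _ (algebraMap ℤ ℂ).injective_int
  rw [map_zero]
  refine MvPolynomial.funext (fun z => ?_)
  rw [eval_map, map_zero]
  exact h z

lemma eq_zero_of_generic {r m : ℕ} (U : Fin r × Fin (m+1) → ℂ)
    (inj : ∀ G : RR r m, aeval U G = 0 → G = 0)
    (L : MvPolynomial (Fin (r+1) × Fin (m+1)) ℤ)
    (h : ∀ w : Fin (m+1) → ℂ, aeval (consU w U) L = 0) : L = 0 := by
  have hinj : Function.Injective (psi U) :=
    (injective_iff_map_eq_zero (psi U)).mpr (fun G hG => inj G hG)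
  have h1 : toR L = 0 := by
    apply MvPolynomial.map_injective (psi U) hinj
    rw [map_zero]
    refine MvPolynomial.funext (fun w => ?_)
    rw [eval_map, eval₂_toR, h, map_zero]
  refine eq_zero_of_aeval L (fun z => ?_)
  rw [← consU_surj z, ← eval₂_toR, h1]
  simp

lemma fac_toR {m r : ℕ} {ξ : Fin m → ℂ} {F : MvPolynomial (Fin (r+1) × Fin (m+1)) ℤ}
    (S : GenSplit r ξ F) :
    MvPolynomial.map (psi S.U) (toR F) =
      C (psi S.U S.a) * ∏ σ, (X 0 + ∑ j : Fin m, C (S.p σ j) * X j.succ) := by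
  refine MvPolynomial.funext (fun w => ?_)
  rw [eval_map, eval₂_toR, S.fac w]
  simp only [map_mul, eval_C, psi_apply, map_prod, map_add, eval_X, map_sum]
  congr 1
  refine Finset.prod_congr rfl (fun σ _ => ?_)
  congr 1
  exact Finset.sum_congr rfl (fun j _ => mul_comm _ _)

lemma psi_inj {m r : ℕ} {ξ : Fin m → ℂ} {F : MvPolynomial (Fin (r+1) × Fin (m+1)) ℤ}
    (S : GenSplit r ξ F) : Function.Injective (psi S.U) :=
  (injective_iff_map_eq_zero (psi S.U)).mpr (fun G hG => S.inj G hG)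

lemma a_ne {m r : ℕ} {ξ : Fin m → ℂ} {F : MvPolynomial (Fin (r+1) × Fin (m+1)) ℤ}
    (S : GenSplit r ξ F) (hF : F ≠ 0) : aeval S.U S.a ≠ 0 := by
  intro h0
  apply hF
  refine eq_zero_of_generic S.U S.inj F (fun w => ?_)
  rw [S.fac w, h0, zero_mul]

/-- the degree in the first coefficient -/
lemma delta_eq {m r : ℕ} {ξ : Fin m → ℂ} {F : MvPolynomial (Fin (r+1) × Fin (m+1)) ℤ}
    (S : GenSplit r ξ F) (hF : F ≠ 0) : S.δ = F.degreeOf (0, 0) := by
  classical
  set D := F.degreeOf (0, 0) with hD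
  set FD : MvPolynomial (Fin (r+1) × Fin (m+1)) ℤ :=
    ∑ α ∈ F.support.filter (fun α => α (0,0) = D), monomial α (coeff α F) with hFD
  have hsup : D = F.support.sup (fun α => α (0,0)) := by rw [hD, degreeOf_eq_sup]
  obtain ⟨α, hα, hαD⟩ : ∃ α ∈ F.support, α (0,0) = D := by
    obtain ⟨α, hα, h1⟩ := Finset.exists_mem_eq_sup F.support
      (MvPolynomial.support_nonempty.mpr hF) (fun α => α (0,0))
    exact ⟨α, hα, by rw [hsup, h1]⟩
  have hFD0 : FD ≠ 0 := by
    intro h0
    have h1 : coeff α FD = coeff α F := by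
      rw [hFD, coeff_sum]
      simp only [coeff_monomial]
      rw [Finset.sum_ite_eq' (F.support.filter (fun α => α (0,0) = D)) α, if_pos]
      exact Finset.mem_filter.mpr ⟨hα, hαD⟩
    rw [h0, coeff_zero] at h1
    exact (mem_support_iff.mp hα) h1.symm
  obtain ⟨w, hw⟩ : ∃ w : Fin (m+1) → ℂ, aeval (consU w S.U) (FD * X (0,0)) ≠ 0 := by
    by_contra hcon
    push Not at hcon
    have h1 := eq_zero_of_generic S.U S.inj _ hcon
    rcases mul_eq_zero.mp h1 with h2 | h2
    · exact hFD0 h2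
    · exact X_ne_zero _ h2
  rw [map_mul, aeval_X] at hw
  have hw0 : w 0 ≠ 0 := by
    have := right_ne_zero_of_mul hw
    simpa [consU] using this
  have hwD : aeval (consU w S.U) FD ≠ 0 := left_ne_zero_of_mul hw
  set z := consU w S.U with hz
  set P : Polynomial ℂ := ∑ α ∈ F.support,
    Polynomial.C (((coeff α F : ℤ) : ℂ) * ∏ i, z i ^ α i) * Polynomial.X ^ (α (0,0)) with hP
  have hPe : ∀ t : ℂ, P.eval t = aeval (consU (Fin.cons (t * w 0) (Fin.tail w)) S.U) F := by
    intro t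
    rw [aeval_def, eval₂_eq', hP, Polynomial.eval_finsetSum]
    refine Finset.sum_congr rfl (fun β _ => ?_)
    rw [Polynomial.eval_mul, Polynomial.eval_C, Polynomial.eval_pow, Polynomial.eval_X]
    have h2 : ∏ i, (consU (Fin.cons (t * w 0) (Fin.tail w)) S.U) i ^ β i =
        t ^ β (0,0) * ∏ i, z i ^ β i := by
      rw [← Finset.mul_prod_erase Finset.univ (fun i => (consU (Fin.cons (t * w 0) (Fin.tail w)) S.U) i ^ β i) (Finset.mem_univ ((0:Fin (r+1)), (0:Fin (m+1)))),
        ← Finset.mul_prod_erase Finset.univ (fun i => z i ^ β i) (Finset.mem_univ ((0:Fin (r+1)), (0:Fin (m+1))))]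
      have h3 : (consU (Fin.cons (t * w 0) (Fin.tail w)) S.U) (0,0) = t * z (0,0) := by
        simp [consU, hz]
      rw [h3, mul_pow, mul_assoc]
      congr 2
      refine Finset.prod_congr rfl (fun i hi => ?_)
      congr 1
      rcases i with ⟨i, j⟩
      have hne := (Finset.mem_erase.mp hi).1
      rw [hz]
      revert hne
      refine Fin.cases ?_ (fun i => ?_) i
      · refine Fin.cases ?_ (fun j => ?_) j
        · intro hne; exact absurd rfl hne
        · intro _; simp [consU, Fin.tail]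
      · intro _; simp [consU]
    rw [h2]
    simp only [algebraMap_int_eq, eq_intCast]
    ring
  have hPc : P.coeff D = aeval z FD := by
    rw [hP, Polynomial.finsetSum_coeff, hFD, map_sum, Finset.sum_filter]
    refine Finset.sum_congr rfl (fun β _ => ?_)
    rw [Polynomial.coeff_C_mul, Polynomial.coeff_X_pow]
    by_cases hβ : β (0,0) = D
    · rw [if_pos hβ.symm, if_pos hβ, aeval_monomial, mul_one]
      simp [Finsupp.prod_fintype]
    · rw [if_neg (fun h => hβ h.symm), if_neg hβ, mul_zero]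
  have hPd : P.natDegree = D := by
    refine le_antisymm ?_ (Polynomial.le_natDegree_of_ne_zero (by rw [hPc]; exact hwD))
    rw [hP]
    refine Polynomial.natDegree_sum_le_of_forall_le _ _ (fun β hβ => ?_)
    refine (Polynomial.natDegree_C_mul_X_pow_le _ _).trans ?_
    rw [hsup]
    exact Finset.le_sup (f := fun α => α (0,0)) hβ
  have hPP : P = Polynomial.C (aeval S.U S.a) *
      ∏ σ, (Polynomial.C (w 0) * Polynomial.X + Polynomial.C (∑ j, w j.succ * S.p σ j)) := by
    refine Polynomial.funext (fun t => ?_)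
    rw [hPe, S.fac]
    simp only [Polynomial.eval_mul, Polynomial.eval_C, Polynomial.eval_prod, Polynomial.eval_add,
      Polynomial.eval_X]
    congr 1
    refine Finset.prod_congr rfl (fun σ _ => ?_)
    simp only [Fin.cons_zero, Fin.cons_succ, Fin.tail]
    ring
  have hlin : ∀ σ : Fin S.δ, (Polynomial.C (w 0) * Polynomial.X +
      Polynomial.C (∑ j : Fin m, w j.succ * S.p σ j)).natDegree = 1 := fun σ =>
    Polynomial.natDegree_linear hw0
  have hPd2 : P.natDegree = S.δ := by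
    rw [hPP, Polynomial.natDegree_C_mul (a_ne S hF), Polynomial.natDegree_prod]
    · rw [Finset.sum_congr rfl (fun σ _ => hlin σ)]
      simp
    · intro σ _ h0
      have := hlin σ
      rw [h0] at this
      simp at this
  rw [← hPd, hPd2]

/-- `a` without the zeroth variables -/
noncomputable def aRed {m r : ℕ} (a : RR r m) : MvPolynomial (Fin r × Fin m) ℤ :=
  aeval (fun ij : Fin r × Fin (m+1) => Fin.cases (motive := fun _ => MvPolynomial (Fin r × Fin m) ℤ)
    0 (fun j => X (ij.1, j)) ij.2) a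

lemma aeval_aRed {m r : ℕ} (a : RR r m) (V : Fin r × Fin (m+1) → ℂ) :
    aeval (fun ij : Fin r × Fin m => V (ij.1, ij.2.succ)) (aRed a) =
      aeval (fun ij : Fin r × Fin (m+1) => Fin.cases (motive := fun _ => ℂ) 0
        (fun j => V (ij.1, j.succ)) ij.2) a := by
  rw [aRed, MvPolynomial.comp_aeval_apply]
  congr 2
  funext ij
  rcases ij with ⟨i, j⟩
  refine Fin.cases ?_ (fun j => ?_) j
  · simp
  · simp

lemma a_eq {m r : ℕ} {ξ : Fin m → ℂ} {F : MvPolynomial (Fin (r+1) × Fin (m+1)) ℤ}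
    (S : GenSplit r ξ F) (V : Fin r × Fin (m+1) → ℂ) :
    aeval (consU (Fin.cons 1 0) V) F = aeval V S.a := by
  set L : RR r m := aeval (fun ij : Fin (r+1) × Fin (m+1) =>
    Fin.cases (motive := fun _ => RR r m)
      (Fin.cons (α := fun _ => RR r m) 1 0 ij.2) (fun i => X (i, ij.2)) ij.1) F with hL
  have hLe : ∀ V : Fin r × Fin (m+1) → ℂ, aeval V L = aeval (consU (Fin.cons 1 0) V) F := by
    intro V
    rw [hL, MvPolynomial.comp_aeval_apply]
    congr 2
    funext ij
    rcases ij with ⟨i, j⟩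
    refine Fin.cases ?_ (fun i => ?_) i
    · refine Fin.cases ?_ (fun j => ?_) j
      · simp [consU]
      · simp [consU]
    · simp [consU]
  have h1 : L - S.a = 0 := by
    apply S.inj
    rw [map_sub, hLe, S.fac]
    simp
  rw [← hLe, sub_eq_zero.mp h1]

lemma aeval_a {m r : ℕ} {ξ : Fin m → ℂ} {F : MvPolynomial (Fin (r+1) × Fin (m+1)) ℤ}
    (h4 : SInv) (hV : IsVar r ξ F) (S : GenSplit r ξ F) (V : Fin r × Fin (m+1) → ℂ) :
    aeval (fun ij : Fin r × Fin m => V (ij.1, ij.2.succ)) (aRed S.a) = aeval V S.a := by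
  rw [aeval_aRed]
  have h := h4 m r ξ F hV (fun i => - V (i, 0)) (Fin.cons 1 0) V
  rw [a_eq S, a_eq S] at h
  rw [← h]
  congr 2
  funext ij
  rcases ij with ⟨i, j⟩
  refine Fin.cases ?_ (fun j => ?_) j
  · simp
  · simp

/-- the coordinates of the generic points are zeros of polynomials with leading coefficient `a` -/
lemma exists_poly {m r : ℕ} {ξ : Fin m → ℂ} {F : MvPolynomial (Fin (r+1) × Fin (m+1)) ℤ}
    (S : GenSplit r ξ F) (hF : F ≠ 0) (σ : Fin S.δ) (j : Fin m) :
    ∃ P : Polynomial (RR r m), 0 < P.natDegree ∧ P.leadingCoeff = S.a ∧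
      P.eval₂ (psi S.U) (S.p σ j) = 0 := by
  classical
  set W : Fin (m+1) → Polynomial (RR r m) :=
    Fin.cons Polynomial.X (fun k => if k = j then -1 else 0) with hW
  set P : Polynomial (RR r m) := eval₂ Polynomial.C W (toR F) with hP
  have hmap : Polynomial.map (psi S.U) P =
      Polynomial.C (psi S.U S.a) * ∏ σ, (Polynomial.X - Polynomial.C (S.p σ j)) := by
    have h1 : Polynomial.map (psi S.U) P = eval₂ ((Polynomial.mapRingHom (psi S.U)).comp Polynomial.C)
        (fun i => Polynomial.mapRingHom (psi S.U) (W i)) (toR F) := by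
      rw [hP, ← Polynomial.coe_mapRingHom, hom_eval₂]
    have h2 : (Polynomial.mapRingHom (psi S.U)).comp Polynomial.C =
        (Polynomial.C : ℂ →+* Polynomial ℂ).comp (psi S.U) := by
      refine RingHom.ext (fun x => ?_)
      simp
    rw [h1, h2, ← eval₂_map, fac_toR]
    simp only [eval₂_mul, eval₂_C, eval₂_prod, eval₂_add, eval₂_X, eval₂_sum]
    congr 1
    refine Finset.prod_congr rfl (fun σ _ => ?_)
    simp only [hW, Fin.cons_zero, Fin.cons_succ, apply_ite, map_neg, map_one, map_zero, mul_neg,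
      mul_one, mul_zero, Finset.sum_ite_eq', Finset.mem_univ, if_true, Polynomial.coe_mapRingHom,
      Polynomial.map_X]
    simp [sub_eq_add_neg]
  have hdegm : (Polynomial.map (psi S.U) P).natDegree = S.δ := by
    rw [hmap, Polynomial.natDegree_C_mul (show psi S.U S.a ≠ 0 from a_ne S hF),
      Polynomial.natDegree_prod_of_monic _ _ (fun σ _ => Polynomial.monic_X_sub_C _)]
    simp
  have hdeg : P.natDegree = S.δ := by
    rw [← hdegm, Polynomial.natDegree_map_eq_of_injective (psi_inj S)]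
  refine ⟨P, by rw [hdeg]; exact S.δ_pos, ?_, ?_⟩
  · apply psi_inj S
    rw [← Polynomial.leadingCoeff_map_of_injective (psi_inj S), hmap, Polynomial.leadingCoeff_mul,
      Polynomial.leadingCoeff_C, Polynomial.leadingCoeff_prod]
    simp
  · rw [← Polynomial.eval_map, hmap, Polynomial.eval_mul, Polynomial.eval_prod,
      Finset.prod_eq_zero (Finset.mem_univ σ) (by simp), mul_zero]

lemma eval₂_psi_map {m r : ℕ} (V : Fin r × Fin (m+1) → ℂ) (p : Fin m → ℂ)
    (Q : MvPolynomial (Fin m) ℤ) :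
    eval₂ (psi V) p (MvPolynomial.map (algebraMap ℤ (RR r m)) Q) = aeval p Q := by
  rw [eval₂_map, aeval_def]
  congr 1
  exact RingHom.ext_int _ _

lemma exists_g (h2 : SInteg) {m r : ℕ} {ξ : Fin m → ℂ}
    {F : MvPolynomial (Fin (r+1) × Fin (m+1)) ℤ} (S : GenSplit r ξ F)
    (Q : MvPolynomial (Fin m) ℤ) (d : ℕ) : ∃ g : RR r m, Q.totalDegree ≤ d →
      aeval S.U g = (aeval S.U S.a)^d * ∏ σ, aeval (S.p σ) Q := by
  by_cases hQ : Q.totalDegree ≤ d
  · obtain ⟨num, den, hden, hnd⟩ := S.sym Q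
    have hdeg : (MvPolynomial.map (algebraMap ℤ (RR r m)) Q).totalDegree ≤ d := by
      refine le_trans ?_ hQ
      rw [totalDegree, totalDegree]
      exact Finset.sup_mono (support_map_subset _ _)
    have hnd' : psi S.U den * ∏ σ, eval₂ (psi S.U) (S.p σ)
        (MvPolynomial.map (algebraMap ℤ (RR r m)) Q) = psi S.U num := by
      simp only [eval₂_psi_map]
      exact hnd
    have k1 := h2 (RR r m) ℂ (psi S.U) (psi_inj S) m S.δ S.a S.p (toR F)
    have k2 := k1 (fac_toR S)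
    have k3 := k2 (MvPolynomial.map (algebraMap ℤ (RR r m)) Q) d hdeg num den hden
    obtain ⟨g, hg⟩ := k3 hnd'
    refine ⟨g, fun _ => ?_⟩
    simp only [eval₂_psi_map] at hg
    exact hg
  · exact ⟨0, fun h => absurd h hQ⟩

lemma specialise (h3 : SSpecial) {m r : ℕ} {ξ : Fin m → ℂ}
    {F : MvPolynomial (Fin (r+1) × Fin (m+1)) ℤ} (S : GenSplit r ξ F) (hF : F ≠ 0)
    (V : Fin r × Fin (m+1) → ℂ) (hVa : aeval V S.a ≠ 0) :
    ∃ p' : Fin S.δ → Fin m → ℂ, ∀ G : MvPolynomial (Fin S.δ × Fin m) (RR r m),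
        eval₂ (psi S.U) (fun σj => S.p σj.1 σj.2) G = 0 →
        eval₂ (psi V) (fun σj => p' σj.1 σj.2) G = 0 := by
  set e := (finProdFinEquiv : Fin S.δ × Fin m ≃ Fin (S.δ * m)) with he
  obtain ⟨z', hz'⟩ := h3 (RR r m) ℂ ℂ (psi S.U) (psi_inj S) S.a (S.δ * m)
    (fun k => S.p (e.symm k).1 (e.symm k).2)
    (fun k => exists_poly S hF (e.symm k).1 (e.symm k).2) (psi V) hVa
  refine ⟨fun σ j => z' (e (σ, j)), fun G hG => ?_⟩
  have h5 := hz' (rename e G) (by
    rw [eval₂_rename]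
    rw [← hG]
    congr 1
    funext σj
    simp)
  rw [eval₂_rename] at h5
  rw [← h5]
  congr 1

section
variable {m r : ℕ} {ξ : Fin m → ℂ} {F : MvPolynomial (Fin (r+1) × Fin (m+1)) ℤ}
  (S : GenSplit r ξ F) (V : Fin r × Fin (m+1) → ℂ) (p' : Fin S.δ → Fin m → ℂ)
  (hsp : ∀ G : MvPolynomial (Fin S.δ × Fin m) (RR r m),
        eval₂ (psi S.U) (fun σj => S.p σj.1 σj.2) G = 0 →
        eval₂ (psi V) (fun σj => p' σj.1 σj.2) G = 0)

include hsp

lemma spec_onV (σ : Fin S.δ) : OnV ξ (p' σ) := by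
  intro Q hQ
  have h5 := hsp (rename (fun j => (σ, j)) (MvPolynomial.map (algebraMap ℤ (RR r m)) Q)) (by
    rw [eval₂_rename]
    exact (eval₂_psi_map S.U (S.p σ) Q).trans ((S.conj σ Q).mpr hQ))
  rw [eval₂_rename] at h5
  exact (eval₂_psi_map V (p' σ) Q).symm.trans h5

lemma spec_inc (σ : Fin S.δ) (i : Fin r) :
    V (i, 0) + ∑ j : Fin m, V (i, j.succ) * p' σ j = 0 := by
  have h5 := hsp (C (X (i, 0)) + ∑ j : Fin m, C (X (i, j.succ)) * X (σ, j)) (by
    simp only [eval₂_add, eval₂_C, eval₂_sum, eval₂_mul, eval₂_X, psi_apply, aeval_X]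
    exact S.inc σ i)
  simp only [eval₂_add, eval₂_C, eval₂_sum, eval₂_mul, eval₂_X, psi_apply, aeval_X] at h5
  exact h5

lemma spec_map : MvPolynomial.map (psi V) (toR F) =
    C (psi V S.a) * ∏ σ, (X 0 + ∑ j : Fin m, C (p' σ j) * X j.succ) := by
  refine MvPolynomial.funext_set (fun _ => Set.range (fun n : ℤ => (n : ℂ)))
    (fun _ => infinite_int) ?_
  intro x hx
  choose y hy using fun i => hx i (Set.mem_univ i)
  have hxy : x = fun i => (y i : ℂ) := funext fun i => (hy i).symm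
  have hev : ∀ V : Fin r × Fin (m+1) → ℂ,
      psi V (eval (fun i => ((y i : ℤ) : RR r m)) (toR F)) = eval₂ (psi V) x (toR F) := by
    intro V
    rw [hxy, eval, coe_eval₂Hom, hom_eval₂, RingHom.comp_id]
    congr 1
    funext i
    simp
  have h5 := hsp (C (eval (fun i => ((y i : ℤ) : RR r m)) (toR F)) -
    C S.a * ∏ σ, (C ((y 0 : ℤ) : RR r m) + ∑ j : Fin m, C ((y j.succ : ℤ) : RR r m) * X (σ, j)))
    (by
      simp only [eval₂_sub, eval₂_add, eval₂_C, eval₂_sum, eval₂_mul, eval₂_X, eval₂_prod,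
        hev]
      simp only [map_intCast]
      rw [eval₂_toR, S.fac, psi_apply, hxy, sub_self])
  simp only [eval₂_sub, eval₂_add, eval₂_C, eval₂_sum, eval₂_mul, eval₂_X, eval₂_prod,
        hev] at h5
  simp only [map_intCast] at h5
  rw [eval_map]
  rw [sub_eq_zero.mp h5]
  simp only [map_mul, eval_C, map_prod, map_add, eval_X, map_sum, hxy]
  congr 1
  refine Finset.prod_congr rfl (fun σ _ => ?_)
  congr 1
  exact Finset.sum_congr rfl (fun j _ => mul_comm _ _)

lemma spec_fac (w : Fin (m+1) → ℂ) : aeval (consU w V) F =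
    aeval V S.a * ∏ σ, (w 0 + ∑ j : Fin m, w j.succ * p' σ j) := by
  rw [← eval₂_toR, ← eval_map, spec_map S V p' hsp]
  simp only [map_mul, eval_C, psi_apply, map_prod, map_add, eval_X, map_sum]
  congr 1
  refine Finset.prod_congr rfl (fun σ _ => ?_)
  congr 1
  exact Finset.sum_congr rfl (fun j _ => mul_comm _ _)

lemma spec_g (Q : MvPolynomial (Fin m) ℤ) (d : ℕ) (g : RR r m)
    (hg : aeval S.U g = (aeval S.U S.a)^d * ∏ σ, aeval (S.p σ) Q) :
    aeval V g = (aeval V S.a)^d * ∏ σ, aeval (p' σ) Q := by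
  have e1 : ∀ σ, eval₂ (psi S.U) ((fun σj : Fin S.δ × Fin m => S.p σj.1 σj.2) ∘ fun j => (σ, j))
        (MvPolynomial.map (algebraMap ℤ (RR r m)) Q) = aeval (S.p σ) Q :=
      fun σ => eval₂_psi_map S.U (S.p σ) Q
  have e2 : ∀ σ, eval₂ (psi V) ((fun σj : Fin S.δ × Fin m => p' σj.1 σj.2) ∘ fun j => (σ, j))
        (MvPolynomial.map (algebraMap ℤ (RR r m)) Q) = aeval (p' σ) Q :=
      fun σ => eval₂_psi_map V (p' σ) Q
  have h5 := hsp (C g - C (S.a ^ d) *
    ∏ σ, rename (fun j => (σ, j)) (MvPolynomial.map (algebraMap ℤ (RR r m)) Q)) (by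
    simp only [eval₂_sub, eval₂_C, eval₂_mul, eval₂_prod, eval₂_rename, e1]
    rw [map_pow, psi_apply, psi_apply, hg, sub_self])
  simp only [eval₂_sub, eval₂_C, eval₂_mul, eval₂_prod, eval₂_rename, e2] at h5
  rw [map_pow] at h5
  exact sub_eq_zero.mp h5

end

theorem split (h1 : SGenSplit) (h2 : SInteg) (h3 : SSpecial) (h4 : SInv) : SSplit := by
  intro m r ξ F hV
  obtain ⟨S⟩ := h1 m r ξ F hV
  have hF := hV.chow.1
  choose g hg using exists_g h2 S
  refine ⟨⟨S.δ, aRed S.a, g, S.δ_pos, delta_eq S hF, ?_, ?_, ?_⟩⟩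
  · intro h0
    have h := aeval_a h4 hV S S.U
    rw [h0, map_zero] at h
    exact a_ne S hF h.symm
  · intro V hVa
    rw [aeval_a h4 hV S V] at hVa ⊢
    obtain ⟨p', hsp⟩ := specialise h3 S hF V hVa
    exact ⟨p', spec_onV S V p' hsp, spec_inc S V p' hsp, spec_fac S V p' hsp,
      fun Q d hQ => spec_g S V p' hsp Q d (g Q d) (hg Q d hQ)⟩
  · intro Q d hQ hQξ h0
    have h5 := hg Q d hQ
    rw [h0, map_zero] at h5
    rcases mul_eq_zero.mp h5.symm with h6 | h6
    · exact pow_ne_zero d (a_ne S hF) h6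
    · obtain ⟨σ, _, hσ⟩ := Finset.prod_eq_zero_iff.mp h6
      exact hQξ ((S.conj σ Q).mp hσ)

end Pool.Agent.Helper15.LR
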